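import Pool.Agent.R307.EM.Transfer

/-!
Uniform measures on `s`-point subsets of the grid `{1, …, Δ}^d`, with the Wasserstein-1 distance
coming from the `ℓ_1` or from the `ℓ_2` metric, embed into `L_1` with distortion bounded by a
function of `s` alone.
-/

namespace Pool.Agent.Results.MP_12e089_an.BoundedDistortion

open Finset R307.EM

lemma embedsL1_mono {X : Type*} {ρ : X → X → ℝ} (hρ : ∀ x y, 0 ≤ ρ x y) {D D' : ℝ}
    (h : D ≤ D') (hD : EmbedsL1 ρ D) : EmbedsL1 ρ D' := by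
  obtain ⟨f, r, hr, hf⟩ := hD
  refine ⟨f, r, hr, fun x y => ⟨(hf x y).1, (hf x y).2.trans ?_⟩⟩
  exact mul_le_mul_of_nonneg_right (mul_le_mul_of_nonneg_right h hr.le) (hρ x y)

lemma W1_nonneg {M : Type*} [Fintype M] (ρ : M → M → ℝ) (hρ : ∀ x y, 0 ≤ ρ x y) (μ ν : M → ℝ) :
    0 ≤ W1 ρ μ ν := by
  unfold W1
  apply Real.sInf_nonneg
  rintro c ⟨π, hπ, rfl⟩
  exact Finset.sum_nonneg (fun x _ => Finset.sum_nonneg
    (fun y _ => mul_nonneg (hπ.1 x y) (hρ x y)))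

/-- The bound on the distortion. -/
noncomputable def F (s : ℕ) : ℝ := 3200 * (s : ℝ) ^ 5 * (1 + (Nat.log 2 s : ℝ))

lemma one_le_F {s : ℕ} (hs : 1 ≤ s) : 1 ≤ F s := by
  have hs1 : (1 : ℝ) ≤ s := by exact_mod_cast hs
  have h5 : (1 : ℝ) ≤ (s : ℝ) ^ 5 := one_le_pow₀ hs1
  have hl : (0 : ℝ) ≤ (Nat.log 2 s : ℝ) := by positivity
  unfold F
  nlinarith

lemma numeric {s : ℕ} (hs : 1 ≤ s) :
    1 ≤ 8 + 3 * Nat.log 2 s ∧ 24 * (s : ℝ) ^ 3 ≤ 2 ^ (8 + 3 * Nat.log 2 s) ∧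
    64 * (s : ℝ) ^ 3 * 2 * (1 + 8 * s ^ 2 + 2 * ((8 + 3 * Nat.log 2 s : ℕ) : ℝ) * s ^ 2) ≤ F s := by
  have hs1 : (1 : ℝ) ≤ s := by exact_mod_cast hs
  refine ⟨by omega, ?_, ?_⟩
  · have h1 : s < 2 ^ (Nat.log 2 s + 1) := Nat.lt_pow_succ_log_self (by norm_num) s
    have h2 : (s : ℝ) ≤ 2 ^ (Nat.log 2 s + 1) := by exact_mod_cast h1.le
    have h3 : (s : ℝ) ^ 3 ≤ (2 ^ (Nat.log 2 s + 1)) ^ 3 := pow_le_pow_left₀ (by positivity) h2 3
    have h4 : (2 : ℝ) ^ (8 + 3 * Nat.log 2 s) = 32 * (2 ^ (Nat.log 2 s + 1)) ^ 3 := by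
      rw [← pow_mul]
      have : 8 + 3 * Nat.log 2 s = 5 + (Nat.log 2 s + 1) * 3 := by ring
      rw [this, pow_add]
      norm_num
    rw [h4]
    have h5 : (0 : ℝ) ≤ (s : ℝ) ^ 3 := by positivity
    linarith
  · unfold F
    push_cast
    set l : ℝ := (Nat.log 2 s : ℝ) with hl
    have hl0 : 0 ≤ l := by positivity
    have h2 : (1 : ℝ) ≤ (s : ℝ) ^ 2 := one_le_pow₀ hs1
    have h3 : (1 : ℝ) + 8 * s ^ 2 + 2 * (8 + 3 * l) * s ^ 2 ≤ 25 * s ^ 2 * (1 + l) := by nlinarith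
    have h4 : (0 : ℝ) ≤ 64 * (s : ℝ) ^ 3 * 2 := by positivity
    calc 64 * (s : ℝ) ^ 3 * 2 * (1 + 8 * s ^ 2 + 2 * (8 + 3 * l) * s ^ 2)
        ≤ 64 * (s : ℝ) ^ 3 * 2 * (25 * s ^ 2 * (1 + l)) := mul_le_mul_of_nonneg_left h3 h4
      _ = 3200 * (s : ℝ) ^ 5 * (1 + l) := by ring

lemma dist1_nonneg {Δ d : ℕ} (x y : Grid Δ d) : 0 ≤ dist1 x y :=
  Finset.sum_nonneg (fun i _ => abs_nonneg _)

lemma dist2_nonneg {Δ d : ℕ} (x y : Grid Δ d) : 0 ≤ dist2 x y := Real.sqrt_nonneg _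

theorem embeds_dist1 {Δ d s : ℕ} (hs : 1 ≤ s) :
    EmbedsL1 (distY s (dist1 : Grid Δ d → Grid Δ d → ℝ)) (F s) := by
  obtain ⟨hm, hsm, hF⟩ := numeric hs
  let e : Grid Δ d → Finset (Fin d × Fin Δ) := fun x => thr Δ (fun i => (x i : ℕ))
  have he : ∀ x y : Grid Δ d, hd (e x) (e y) = dist1 x y := by
    intro x y
    exact hd_thr Δ _ _ (fun i => (x i).2.le) (fun i => (y i).2.le)
  have h := transfer (M := Grid Δ d) (s := s) hs dist1 e (lam := 1) (κ := 2) one_pos two_pos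
    (fun x y => by rw [he, one_mul]) (fun x y => by
      rw [he]; have := dist1_nonneg x y; linarith) hm hsm
  exact embedsL1_mono (fun S T => W1_nonneg _ dist1_nonneg _ _) hF h

/-- Integer Rademacher sums, shifted to be natural numbers. -/
def g2 {Δ d : ℕ} (x : Grid Δ d) (ε : Fin d → Bool) : ℕ :=
  ((∑ i, if ε i then ((x i : ℕ) : ℤ) else -((x i : ℕ) : ℤ)) + (d : ℤ) * Δ).toNat

lemma g2_cast {Δ d : ℕ} (x : Grid Δ d) (ε : Fin d → Bool) :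
    ((g2 x ε : ℕ) : ℝ) = rad (fun i => ((x i : ℕ) : ℝ)) ε + d * Δ ∧ g2 x ε ≤ 2 * (d * Δ) := by
  have hb : ∀ i : Fin d, |(if ε i then ((x i : ℕ) : ℤ) else -((x i : ℕ) : ℤ))| ≤ (Δ : ℤ) := by
    intro i
    have h1 : ((x i : ℕ) : ℤ) < Δ := by exact_mod_cast (x i).2
    have h2 : (0 : ℤ) ≤ ((x i : ℕ) : ℤ) := by positivity
    rw [abs_le]
    split_ifs <;> constructor <;> linarith
  have hsum : |∑ i, (if ε i then ((x i : ℕ) : ℤ) else -((x i : ℕ) : ℤ))| ≤ (d : ℤ) * Δ := by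
    refine (Finset.abs_sum_le_sum_abs _ _).trans ?_
    refine (Finset.sum_le_sum (fun i _ => hb i)).trans ?_
    simp
  rw [abs_le] at hsum
  set z : ℤ := (∑ i, if ε i then ((x i : ℕ) : ℤ) else -((x i : ℕ) : ℤ)) + (d : ℤ) * Δ with hz
  have hz0 : 0 ≤ z := by linarith
  have hz1 : z ≤ 2 * (d * Δ) := by linarith
  have hzn : ((g2 x ε : ℕ) : ℤ) = z := Int.toNat_of_nonneg hz0
  constructor
  · have h1 : ((g2 x ε : ℕ) : ℝ) = (z : ℝ) := by exact_mod_cast hzn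
    rw [h1, hz]
    push_cast
    congr 1
    unfold rad
    refine Finset.sum_congr rfl (fun i _ => ?_)
    unfold sg
    by_cases h : ε i = true <;> simp [h]
  · have : ((g2 x ε : ℕ) : ℤ) ≤ ((2 * (d * Δ) : ℕ) : ℤ) := by
      rw [hzn]; push_cast; exact hz1
    exact_mod_cast this

theorem embeds_dist2 {Δ d s : ℕ} (hs : 1 ≤ s) :
    EmbedsL1 (distY s (dist2 : Grid Δ d → Grid Δ d → ℝ)) (F s) := by
  obtain ⟨hm, hsm, hF⟩ := numeric hs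
  let e : Grid Δ d → Finset ((Fin d → Bool) × Fin (2 * (d * Δ))) := fun x => thr _ (g2 x)
  have he : ∀ x y : Grid Δ d, hd (e x) (e y)
      = ∑ ε : Fin d → Bool, |rad (fun i => ((x i : ℕ) : ℝ) - ((y i : ℕ) : ℝ)) ε| := by
    intro x y
    show hd (thr _ (g2 x)) (thr _ (g2 y)) = _
    rw [hd_thr _ _ _ (fun ε => (g2_cast x ε).2) (fun ε => (g2_cast y ε).2)]
    refine Finset.sum_congr rfl (fun ε _ => ?_)
    rw [(g2_cast x ε).1, (g2_cast y ε).1]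
    congr 1
    unfold rad
    rw [add_sub_add_right_eq_sub, ← Finset.sum_sub_distrib]
    exact Finset.sum_congr rfl (fun i _ => by ring)
  have hboth : ∀ x y : Grid Δ d, hd (e x) (e y) ≤ 2 ^ d * dist2 x y ∧
      2 ^ d * dist2 x y ≤ 2 * hd (e x) (e y) := by
    intro x y
    rw [he]
    have hsq : dist2 x y ^ 2 = ∑ i, (((x i : ℕ) : ℝ) - ((y i : ℕ) : ℝ)) ^ 2 :=
      Real.sq_sqrt (Finset.sum_nonneg (fun i _ => sq_nonneg _))
    rcases (dist2_nonneg x y).eq_or_lt with h0 | h0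
    · rw [← h0] at hsq ⊢
      have hz : ∀ i, (((x i : ℕ) : ℝ) - ((y i : ℕ) : ℝ)) = 0 := by
        intro i
        have h1 : ∑ i, (((x i : ℕ) : ℝ) - ((y i : ℕ) : ℝ)) ^ 2 = 0 := by rw [← hsq]; ring
        have h2 := (Finset.sum_eq_zero_iff_of_nonneg (fun i _ => sq_nonneg _)).1 h1 i
          (Finset.mem_univ i)
        exact pow_eq_zero_iff (two_ne_zero) |>.1 h2
      have hr : ∀ ε : Fin d → Bool,
          rad (fun i => ((x i : ℕ) : ℝ) - ((y i : ℕ) : ℝ)) ε = 0 := by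
        intro ε
        unfold rad
        apply Finset.sum_eq_zero
        intro i _
        show sg (ε i) * (((x i : ℕ) : ℝ) - ((y i : ℕ) : ℝ)) = 0
        rw [hz i, mul_zero]
      simp [hr]
    · exact ⟨sum_abs_rad_le _ h0 hsq, le_sum_abs_rad _ h0 hsq⟩
  have h := transfer (M := Grid Δ d) (s := s) hs dist2 e (lam := 2 ^ d) (κ := 2) (by positivity)
    two_pos (fun x y => (hboth x y).1) (fun x y => (hboth x y).2) hm hsm
  exact embedsL1_mono (fun S T => W1_nonneg _ dist2_nonneg _ _) hF h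

/-- For all `Δ ≥ 2`, `d ≥ 1` and `1 ≤ s ≤ Δ^d`, for the `ℓ_1` metric and for the `ℓ_2` metric on
the grid, the space `Y(Δ, d, s)` embeds into `L_1` with distortion at most
`3200 s^5 (1 + ⌊log_2 s⌋)`; in particular `c_1(Y(Δ, d, s))` is bounded by a function of `s`. -/
theorem result :
    ∀ Δ d s : ℕ, 2 ≤ Δ → 1 ≤ d → 1 ≤ s → s ≤ Δ ^ d →
      (EmbedsL1 (distY s (dist1 : Grid Δ d → Grid Δ d → ℝ))
          (3200 * (s : ℝ) ^ 5 * (1 + (Nat.log 2 s : ℝ))) ∧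
        c1 (distY s (dist1 : Grid Δ d → Grid Δ d → ℝ))
          ≤ 3200 * (s : ℝ) ^ 5 * (1 + (Nat.log 2 s : ℝ))) ∧
      (EmbedsL1 (distY s (dist2 : Grid Δ d → Grid Δ d → ℝ))
          (3200 * (s : ℝ) ^ 5 * (1 + (Nat.log 2 s : ℝ))) ∧
        c1 (distY s (dist2 : Grid Δ d → Grid Δ d → ℝ))
          ≤ 3200 * (s : ℝ) ^ 5 * (1 + (Nat.log 2 s : ℝ))) := by
  intro Δ d s _ _ hs _
  have h1 := embeds_dist1 (Δ := Δ) (d := d) hs
  have h2 := embeds_dist2 (Δ := Δ) (d := d) hs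
  have hb : ∀ ρ : YSet Δ d s → YSet Δ d s → ℝ, EmbedsL1 ρ (F s) → c1 ρ ≤ F s := by
    intro ρ h
    unfold c1
    exact csInf_le ⟨1, fun D hD => hD.1⟩ ⟨one_le_F hs, h⟩
  exact ⟨⟨h1, hb _ h1⟩, ⟨h2, hb _ h2⟩⟩

end Pool.Agent.Results.MP_12e089_an.BoundedDistortion
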